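import Pool.Agent.V11296.FP4

/-!
# Block complexity of the Liouville function: free positions

The patterns of length `N` of the Liouville function are restricted to a set `H` of positions in `{1, …, N}`. All the
`2 ^ |H|` sign patterns on `H` occur, with the expected frequency, for almost all sets `H` of up to `A log log N` positions
(`A` arbitrary), also if the positions are taken from a thin structured family (polynomial values, primes, any set with at
least `N / (log N) ^ C` elements) and if the starting points are restricted to arbitrary sets, for instance to the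
occurrences of the words of length `ℓ`. So every such set of positions contains a cube of dimension `A log log N`, and the
patterns on `{1, …, ℓ} ∪ H` are all the combinations of the words (which are not too rare) with the patterns on `H`.
-/

set_option autoImplicit false

namespace Pool.Agent.Results.MP_4fffd4_nt.FreePositions

open Finset

/-- The Liouville function. -/
def lam (n : ℕ) : ℤ := (-1) ^ ArithmeticFunction.cardFactors n

/-- The additive energy of order `p` of the family `s 1, …, s x`: the number of the solutions of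
`s (v 1) + … + s (v p) = s (w 1) + … + s (w p)` with all `v i`, `w i` in `{1, …, x}`. -/
def energy (p x : ℕ) (s : ℕ → ℤ) : ℕ :=
  (((Fintype.piFinset fun _ : Fin p => Icc 1 x) ×ˢ (Fintype.piFinset fun _ : Fin p => Icc 1 x)).filter
    (fun q => ∑ i, s (q.1 i) = ∑ i, s (q.2 i))).card

/-- The `d`-tuples of numbers from `1` to `x`. -/
def tuples (d x : ℕ) : Finset (Fin d → ℕ) := Fintype.piFinset fun _ => Icc 1 x

open Classical in
/-- The number of the `n ≤ N` in `E`. -/
noncomputable def total (E : Set ℕ) (N : ℕ) : ℕ := ((Icc 1 N).filter fun n => n ∈ E).card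

open Classical in
/-- The number of the `n ≤ N` in `E` with `λ(n + h 1) = v 1`, …, `λ(n + h d) = v d`. -/
noncomputable def count (E : Set ℕ) (N : ℕ) {d : ℕ} (h : Fin d → ℕ) (v : Fin d → ℤ) : ℕ :=
  ((Icc 1 N).filter fun n => n ∈ E ∧ ∀ i, lam (n + h i) = v i).card

/-- The sign pattern of `λ` on `n + S`, given by the set of the `h ∈ S` with `λ(n + h) = -1`. -/
def minus (S : Finset ℕ) (n : ℕ) : Finset ℕ := S.filter fun h => lam (n + h) = -1

/-- The number of the `n ≤ N` with the sign pattern `w` on `n + S`. -/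
def freq (N : ℕ) (S w : Finset ℕ) : ℕ := ((Icc 1 N).filter fun n => minus S n = w).card

/-- The sign patterns on `n + S`, `n ≤ N`. For `S = {1, …, k}` they are at most `P_λ(k)`. -/
def patterns (N : ℕ) (S : Finset ℕ) : Finset (Finset ℕ) := (Icc 1 N).image (minus S)

theorem result :
    (∀ p B C A U : ℕ, ∃ N₀ : ℕ, ∀ N : ℕ, N₀ ≤ N → ∀ (x : ℕ) (s : ℕ → ℕ), (∀ m ∈ Icc 1 x, s m ≤ B * N) →
      (energy p x (fun m => (s m : ℤ)) : ℝ) * N ≤ Real.log N ^ C * (x : ℝ) ^ (2 * p) →
      ∀ d : ℕ, (d : ℝ) ≤ A * Real.log (Real.log N) → ∀ L : ℕ, (L : ℝ) ≤ Real.log N ^ A → ∀ E : Fin L → Set ℕ,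
      ∃ T ⊆ tuples d x, (T.card : ℝ) ≤ (x : ℝ) ^ d / Real.log N ^ U ∧
        ∀ m ∈ tuples d x, m ∉ T → ∀ l, ∀ v : Fin d → ℤ, (∀ i, v i = 1 ∨ v i = -1) →
          |(count (E l) N (fun i => s (m i)) v : ℝ) - total (E l) N / 2 ^ d| ≤ N / Real.log N ^ U) ∧
    (∀ A C : ℕ, ∃ N₀ : ℕ, ∀ N : ℕ, N₀ ≤ N → ∀ ℓ : ℕ, (ℓ : ℝ) ≤ A * Real.log (Real.log N) →
      ∀ D ⊆ Ioc ℓ N, (N : ℝ) / Real.log N ^ C ≤ D.card →
      ∃ H ⊆ D, A * Real.log (Real.log N) ≤ (H.card : ℝ) ∧
        (∀ w ⊆ Icc 1 ℓ, (N : ℝ) / Real.log N ^ A ≤ freq N (Icc 1 ℓ) w → ∀ v ⊆ H,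
          (freq N (Icc 1 ℓ) w : ℝ) / 2 ^ (H.card + 1) ≤ freq N (Icc 1 ℓ ∪ H) (w ∪ v)) ∧
        (∀ W ⊆ (Icc 1 ℓ).powerset, (∀ w ∈ W, (N : ℝ) / Real.log N ^ A ≤ freq N (Icc 1 ℓ) w) →
          W.card * 2 ^ H.card ≤ (patterns N (Icc 1 ℓ ∪ H)).card)) := by
  have hlr : ∀ n : ℕ, Pool.Agent.V11296.FP.lr n = (lam n : ℝ) := by
    intro n
    unfold Pool.Agent.V11296.FP.lr lam
    push_cast
    rfl
  have hng : ∀ (S : Finset ℕ) (n : ℕ), Pool.Agent.V11296.FP.ng S n = minus S n := by
    intro S n
    unfold Pool.Agent.V11296.FP.ng minus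
    refine filter_congr fun h _ => ?_
    rw [hlr]
    constructor
    · intro h1
      exact_mod_cast h1
    · intro h1
      rw [h1]
      norm_num
  refine ⟨?_, ?_⟩
  · intro p B C A U
    obtain ⟨N₀, _, h⟩ := Pool.Agent.V11296.FP.main p B C A U
    refine ⟨N₀, fun N hN x s hs hen d hd L hL E => ?_⟩
    obtain ⟨T, hT, hTc, hTg⟩ := h N hN x s hs hen d hd L hL E
    refine ⟨T, hT, hTc, fun m hm hmT l v hv => ?_⟩
    have hv' : ∀ i, ((v i : ℤ) : ℝ) = 1 ∨ ((v i : ℤ) : ℝ) = -1 := by
      intro i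
      rcases hv i with h | h <;> rw [h]
      · left; norm_num
      · right; norm_num
    have h1 := hTg m hm hmT l (fun i => (v i : ℝ)) hv'
    have h2 : Pool.Agent.V11296.FP.pat (E l) N (fun i => s (m i)) (fun i => (v i : ℝ)) =
        (count (E l) N (fun i => s (m i)) v : ℝ) := by
      rw [Pool.Agent.V11296.FP.pat_card _ _ _ _ hv']
      unfold count
      congr 1
      apply congrArg card
      ext n
      simp only [mem_filter, hlr, Int.cast_inj]
    have h3 : ∑ n ∈ Icc 1 N, Pool.Agent.V11296.FP.ind (E l) n = (total (E l) N : ℝ) := by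
      rw [Pool.Agent.V11296.FP.ind_card]
      rfl
    rw [h2, h3] at h1
    exact h1
  · intro A C
    obtain ⟨N₀, h⟩ := Pool.Agent.V11296.FP.words A C
    refine ⟨max N₀ 3, fun N hN ℓ hℓ D hD hDc => ?_⟩
    have hNr : (3 : ℝ) ≤ N := by exact_mod_cast (le_max_right _ _).trans hN
    have hlog0 : 0 < Real.log N := Real.log_pos (by linarith)
    obtain ⟨H, hH, hHc, hg⟩ := h N ((le_max_left _ _).trans hN) ℓ hℓ D hD hDc
    have hdisj : Disjoint (Icc 1 ℓ) H := by
      rw [disjoint_left]
      intro a ha hb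
      have h1 := hD (hH hb)
      rw [mem_Icc] at ha
      rw [mem_Ioc] at h1
      omega
    have hun : ∀ (w v : Finset ℕ), w ⊆ Icc 1 ℓ → v ⊆ H → ∀ n, (minus (Icc 1 ℓ ∪ H) n = w ∪ v ↔
        minus (Icc 1 ℓ) n = w ∧ minus H n = v) := by
      intro w v hw hv n
      have e1 : minus (Icc 1 ℓ ∪ H) n = minus (Icc 1 ℓ) n ∪ minus H n := by
        unfold minus
        exact filter_union _ _ _
      have m1 : minus (Icc 1 ℓ) n ⊆ Icc 1 ℓ := filter_subset _ _
      have m2 : minus H n ⊆ H := filter_subset _ _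
      rw [e1]
      constructor
      · intro h1
        have key : ∀ (a b c d' : Finset ℕ), a ⊆ Icc 1 ℓ → c ⊆ Icc 1 ℓ → b ⊆ H → d' ⊆ H → a ∪ b = c ∪ d' →
            a ⊆ c ∧ b ⊆ d' := by
          intro a b c d' ha hc hb hd h2
          constructor
          · intro y hy
            have h3 : y ∈ c ∪ d' := by rw [← h2]; exact mem_union_left _ hy
            rcases mem_union.1 h3 with h4 | h4
            · exact h4
            · exact absurd (hd h4) (disjoint_left.1 hdisj (ha hy))
          · intro y hy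
            have h3 : y ∈ c ∪ d' := by rw [← h2]; exact mem_union_right _ hy
            rcases mem_union.1 h3 with h4 | h4
            · exact absurd (hb hy) (disjoint_left.1 hdisj (hc h4))
            · exact h4
        obtain ⟨k1, k2⟩ := key _ _ _ _ m1 hw m2 hv h1
        obtain ⟨k3, k4⟩ := key _ _ _ _ hw m1 hv m2 h1.symm
        exact ⟨subset_antisymm k1 k3, subset_antisymm k2 k4⟩
      · rintro ⟨h1, h2⟩
        rw [h1, h2]
    have hgood : ∀ w ⊆ Icc 1 ℓ, (N : ℝ) / Real.log N ^ A ≤ freq N (Icc 1 ℓ) w → ∀ v ⊆ H,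
          (freq N (Icc 1 ℓ) w : ℝ) / 2 ^ (H.card + 1) ≤ freq N (Icc 1 ℓ ∪ H) (w ∪ v) := by
      intro w hw hbig v hv
      have e1 : ((Icc 1 N).filter fun n => Pool.Agent.V11296.FP.ng (Icc 1 ℓ) n = w) =
          (Icc 1 N).filter fun n => minus (Icc 1 ℓ) n = w := by
        refine filter_congr fun n _ => ?_
        rw [hng]
      have e2 : ((Icc 1 N).filter fun n => Pool.Agent.V11296.FP.ng (Icc 1 ℓ) n = w ∧ Pool.Agent.V11296.FP.ng H n = v) =
          (Icc 1 N).filter fun n => minus (Icc 1 ℓ ∪ H) n = w ∪ v := by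
        refine filter_congr fun n _ => ?_
        rw [hng, hng, hun w v hw hv n]
      have h1 := hg w hw (by rw [e1]; exact hbig) v hv
      rw [e1, e2] at h1
      exact h1
    refine ⟨H, hH, hHc, hgood, ?_⟩
    intro W hW hWf
    have hcard : (W ×ˢ H.powerset).card = W.card * 2 ^ H.card := by
      rw [card_product, card_powerset]
    rw [← hcard]
    refine card_le_card_of_injOn (fun q => q.1 ∪ q.2) ?_ ?_
    · intro q hq
      rw [mem_coe, mem_product] at hq
      have hq1 := mem_powerset.1 (hW hq.1)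
      have hq2 := mem_powerset.1 hq.2
      have h1 := hgood q.1 hq1 (hWf q.1 hq.1) q.2 hq2
      have h2 : (0 : ℝ) < freq N (Icc 1 ℓ) q.1 := lt_of_lt_of_le (by positivity) (hWf q.1 hq.1)
      have h3 : (0 : ℝ) < freq N (Icc 1 ℓ ∪ H) (q.1 ∪ q.2) := lt_of_lt_of_le (by positivity) h1
      have h4 : 0 < ((Icc 1 N).filter fun n => minus (Icc 1 ℓ ∪ H) n = q.1 ∪ q.2).card := by exact_mod_cast h3
      obtain ⟨n, hn⟩ := card_pos.1 h4
      rw [mem_filter] at hn
      unfold patterns
      rw [mem_coe, mem_image]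
      exact ⟨n, hn.1, hn.2⟩
    · intro q hq q' hq' h
      rw [mem_coe, mem_product] at hq hq'
      simp only at h
      have hq1 := mem_powerset.1 (hW hq.1)
      have hq2 := mem_powerset.1 hq.2
      have hq1' := mem_powerset.1 (hW hq'.1)
      have hq2' := mem_powerset.1 hq'.2
      have h5 : ∀ (a b : Finset ℕ), a ⊆ Icc 1 ℓ → b ⊆ H → (a ∪ b) ∩ Icc 1 ℓ = a ∧ (a ∪ b) ∩ H = b := by
        intro a b ha hb
        constructor
        · rw [union_inter_distrib_right, inter_eq_left.2 ha]
          have : b ∩ Icc 1 ℓ = ∅ := by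
            rw [← disjoint_iff_inter_eq_empty]
            exact (disjoint_of_subset_right hb hdisj).symm
          rw [this, union_empty]
        · rw [union_inter_distrib_right, inter_eq_left.2 hb]
          have : a ∩ H = ∅ := by
            rw [← disjoint_iff_inter_eq_empty]
            exact disjoint_of_subset_left ha hdisj
          rw [this, empty_union]
      have h6 := h5 _ _ hq1 hq2
      have h7 := h5 _ _ hq1' hq2'
      apply Prod.ext
      · rw [← h6.1, ← h7.1, h]
      · rw [← h6.2, ← h7.2, h]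

end Pool.Agent.Results.MP_4fffd4_nt.FreePositions
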