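import Pool.Agent.V11125.IP.Cplx

/-!
# Infinite sets of positions on which the Liouville function has all sign patterns

Question 1 says that every sign pattern on every finite set of positions occurs in `λ`: for all finite `F ⊂ ℕ` and all
signs `v_a`, `a ∈ F`, there is an `n` with `λ(n + a) = v_a` for all `a ∈ F`. We prove this for all the finite subsets
`F` of suitable infinite sets `S` of positions, which can be chosen within any given set `A` of one of these kinds:

* `A` has positive upper Banach density;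
* `A` contains a positive proportion of the primes up to `H`, for arbitrarily large `H`;
* `f(m) ∈ A` for the `m` in a set of positive upper density, where `f` is a nonconstant polynomial with integer
  coefficients;
* more generally there are `p` and `C` such that for arbitrarily large `H` some nonempty finite set
  `F ⊆ A ∩ (M, M + H]` has additive energy of order `p` at most `C |F| ^ (2 p) / H`.

(1) The patterns are equidistributed, up to a factor `1 ± η`, also among the starting points `n` in a given set `T` of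
positive upper density which is arbitrary. In fact this can be achieved for countably many sets `T_i` at once:
`S = {s_0 < s_1 < ...}`, and for `T_i` we consider the finite subsets of `{s_i, s_(i+1), ...}` (of `S` for `i = 0`).

(2) Let `P⁺(D)` be the number of the sign patterns on the finite set `D` of positions which occur in `λ` with positive
upper density, so that `P⁺({1, ..., n})` is at most the block complexity `P_λ(n)`. There is an infinite set `S ⊆ A` with
`P⁺(D ∪ F) = 2 ^ |F| P⁺(D)` for all finite `D ⊂ ℕ` and all finite subsets `F` of `{a ∈ S : a > R(D)}`: each of the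
positions in `S` doubles the complexity, which is the maximal growth.

The input is the averaged form of Chowla's conjecture of Matomäki, Radziwiłł and Tao, with arbitrary weights and for
shifts in families of small additive energy, from the library (`Pool.Agent.TH823.MRS`).
-/

set_option autoImplicit false

namespace Pool.Agent.Results.MP_4fffd4_nt.InfinitePatternSets

open Finset Filter

/-- Liouville's function `λ(n) = (-1)^Ω(n)` -/
def lam (n : ℕ) : ℤ := (-1) ^ ArithmeticFunction.cardFactors n

open Classical in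
/-- the number of the elements `n` of `T` with `1 ≤ n ≤ N` -/
noncomputable def size (T : Set ℕ) (N : ℕ) : ℕ := ((Icc 1 N).filter (fun n => n ∈ T)).card

/-- The set `T` has positive upper density. -/
def PosDensity (T : Set ℕ) : Prop := ∃ τ : ℝ, 0 < τ ∧ ∃ᶠ N : ℕ in atTop, τ * N ≤ size T N

open Classical in
/-- The set `A` has positive upper Banach density. -/
def PosBanach (A : Set ℕ) : Prop := ∃ δ : ℝ, 0 < δ ∧ ∃ᶠ H : ℕ in atTop, ∃ M : ℕ,
  δ * H ≤ ((Ioc M (M + H)).filter (fun a => a ∈ A)).card

open Classical in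
/-- The set `A` contains at least `δ π(H)` primes `p ≤ H`, for arbitrarily large `H`. -/
def PosPrimes (A : Set ℕ) : Prop := ∃ δ : ℝ, 0 < δ ∧ ∃ᶠ H : ℕ in atTop,
  δ * Nat.primeCounting H ≤ ((Icc 1 H).filter (fun p => p.Prime ∧ p ∈ A)).card

open Classical in
/-- The values of some nonconstant integer polynomial are in `A` for a set of arguments of positive upper density. -/
def PosValues (A : Set ℕ) : Prop := ∃ f : Polynomial ℤ, 1 ≤ f.natDegree ∧ ∃ δ : ℝ, 0 < δ ∧ ∃ᶠ x : ℕ in atTop,
  δ * x ≤ ((Icc 1 x).filter (fun m : ℕ => ∃ a ∈ A, (a : ℤ) = f.eval (m : ℤ))).card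

/-- The additive energy of order `p` of `F`: the number of the solutions of `v_1 + ... + v_p = w_1 + ... + w_p` with
all `v_i, w_i ∈ F`. -/
def energy (p : ℕ) (F : Finset ℕ) : ℕ :=
  (((Fintype.piFinset fun _ : Fin p => F) ×ˢ (Fintype.piFinset fun _ : Fin p => F)).filter
    (fun q => ∑ i, q.1 i = ∑ i, q.2 i)).card

/-- For some `p`, `C` there are nonempty finite sets `F ⊆ A ∩ (M, M + H]` with `energy p F ≤ C |F| ^ (2 p) / H`, for
arbitrarily large `H`. -/
def SmallEnergy (A : Set ℕ) : Prop := ∃ (p : ℕ) (C : ℝ), ∃ᶠ H : ℕ in atTop, ∃ M : ℕ, ∃ F ⊆ Ioc M (M + H),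
  F.Nonempty ∧ (∀ a ∈ F, a ∈ A) ∧ (energy p F : ℝ) * H ≤ C * (F.card : ℝ) ^ (2 * p)

/-- one of the four kinds of sets -/
def Wide (A : Set ℕ) : Prop := PosBanach A ∨ PosPrimes A ∨ PosValues A ∨ SmallEnergy A

/-- a sequence of signs -/
def Signs (v : ℕ → ℤ) : Prop := ∀ j, v j = 1 ∨ v j = -1

/-- the `n ∈ T` with `λ(n + s j) = v j` for all `j ∈ J` -/
def starts (T : Set ℕ) (s : ℕ → ℕ) (v : ℕ → ℤ) (J : Finset ℕ) : Set ℕ := {n | n ∈ T ∧ ∀ j ∈ J, lam (n + s j) = v j}

/-- the `n` for which the sign pattern of `λ(n + d)`, `d ∈ D`, has the value `1` exactly at the `d ∈ P` -/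
def occurrences (D P : Finset ℕ) : Set ℕ := {n | ∀ d ∈ D, lam (n + d) = if d ∈ P then 1 else -1}

open Classical in
/-- `P⁺(D)`: the number of the sign patterns on the set `D` of positions which occur in `λ` with positive upper
density -/
noncomputable def complexity (D : Finset ℕ) : ℕ := (D.powerset.filter (fun P => PosDensity (occurrences D P))).card

open Pool.Agent.V11125.IP

lemma posDens_iff (T : Set ℕ) : PosDensity T ↔ PosDens T := by
  unfold PosDensity PosDens
  refine exists_congr fun τ => and_congr_right fun _ => ?_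
  rw [Filter.frequently_atTop]
  rfl

lemma num_eq (T : Set ℕ) (s : ℕ → ℕ) (v : ℕ → ℤ) (J : Finset ℕ) (N : ℕ) :
    num T s v J N = size (starts T s v J) N := by
  unfold num size
  apply congrArg Finset.card
  ext n
  simp only [Finset.mem_filter]
  exact Iff.rfl

lemma sel_of {A : Set ℕ} (hA : Wide A) : Sel A := by
  classical
  rcases hA with h | h | h | h
  · obtain ⟨δ, hδ, h⟩ := h
    rw [Filter.frequently_atTop] at h
    refine sel_additive (additive_of_dense ⟨δ, hδ, fun H₀ => ?_⟩)
    obtain ⟨H, hH, M, h1⟩ := h H₀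
    refine ⟨H, hH, M, (Ioc M (M + H)).filter (fun a => a ∈ A), fun a ha => ?_, ?_⟩
    · rw [Finset.mem_filter, Finset.mem_Ioc] at ha
      exact ⟨ha.2, ha.1.1, ha.1.2⟩
    · convert h1
  · obtain ⟨δ, hδ, h⟩ := h
    rw [Filter.frequently_atTop] at h
    refine sel_primes ⟨δ, hδ, fun H₀ => ?_⟩
    obtain ⟨H, hH, h1⟩ := h H₀
    refine ⟨H, hH, (Icc 1 H).filter (fun p => p.Prime ∧ p ∈ A), fun p hp => ?_, ?_⟩
    · rw [Finset.mem_filter, Finset.mem_Icc] at hp
      exact ⟨hp.2.2, hp.2.1, hp.1.2⟩
    · convert h1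
  · obtain ⟨f, hf, δ, hδ, h⟩ := h
    rw [Filter.frequently_atTop] at h
    refine sel_values ⟨f, hf, δ, hδ, fun x₀ => ?_⟩
    obtain ⟨x, hx, h1⟩ := h x₀
    refine ⟨x, hx, (Icc 1 x).filter (fun m : ℕ => ∃ a ∈ A, (a : ℤ) = f.eval (m : ℤ)), fun m hm => ?_, ?_⟩
    · rw [Finset.mem_filter, Finset.mem_Icc] at hm
      exact ⟨hm.1.1, hm.1.2, hm.2⟩
    · convert h1
  · obtain ⟨p, C, h⟩ := h
    rw [Filter.frequently_atTop] at h
    refine sel_additive ⟨p, C, fun H₀ => ?_⟩
    obtain ⟨H, hH, M, F, h1, h2, h3, h4⟩ := h H₀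
    refine ⟨H, hH, M, F, h2, fun a ha => ?_, h4⟩
    have h5 := Finset.mem_Ioc.1 (h1 ha)
    exact ⟨h3 a ha, h5.1, h5.2⟩

/-- **Infinite sets of positions which carry all sign patterns of the Liouville function.** Let `A` be a set of one of
the four kinds.

(1) Let `T 0, T 1, ...` be arbitrary sets of positive upper density, and `η > 0`. There are `s 0 < s 1 < ...` in `A`
such that for each `i` there are `τ > 0` and `N 0 < N 1 < ...` with the following properties for all `m`:
`|T i ∩ [1, N m]| ≥ τ N m`, and for all `J ⊆ [i, m)` and all signs `v` the number of the `n ≤ N m` in `T i` with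
`λ(n + s j) = v j` for all `j ∈ J` is `(1 + θ η) 2 ^ (-|J|) |T i ∩ [1, N m]|` with `|θ| ≤ 1`.

(2) There is an infinite subset `S` of `A` such that for each finite set `D` of positions there is `R` with
`P⁺(D ∪ F) = 2 ^ |F| P⁺(D)` for all finite subsets `F` of `{a ∈ S : a > R}`. -/
theorem result (A : Set ℕ) (hA : Wide A) :
    (∀ T : ℕ → Set ℕ, (∀ i, PosDensity (T i)) → ∀ η : ℝ, 0 < η →
      ∃ s : ℕ → ℕ, StrictMono s ∧ (∀ j, s j ∈ A) ∧
        ∀ i, ∃ τ : ℝ, 0 < τ ∧ ∃ N : ℕ → ℕ, StrictMono N ∧ ∀ m, τ * N m ≤ size (T i) (N m) ∧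
          ∀ J ⊆ Ico i m, ∀ v : ℕ → ℤ, Signs v →
            |2 ^ J.card * (size (starts (T i) s v J) (N m) : ℝ) - size (T i) (N m)| ≤ η * size (T i) (N m)) ∧
    ∃ S : Set ℕ, S.Infinite ∧ S ⊆ A ∧ ∀ D : Finset ℕ, ∃ R : ℕ, ∀ F : Finset ℕ, (∀ a ∈ F, a ∈ S ∧ R < a) →
      complexity (D ∪ F) = 2 ^ F.card * complexity D := by
  classical
  have hS := sel_of hA
  constructor
  · intro T hT η hη
    obtain ⟨s, h1, h2, h3⟩ := main' hS T (fun i => (posDens_iff _).1 (hT i)) hη
    simp only [num_eq] at h3
    exact ⟨s, h1, h2, h3⟩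
  · obtain ⟨s, h1, h2, h3⟩ := Pool.Agent.V11125.IP.complexity hS
    have hc : ∀ D : Finset ℕ, complexity D = (cset D).card := by
      intro D
      unfold complexity cset
      congr 1
      apply Finset.filter_congr
      intro P _
      exact posDens_iff _
    refine ⟨Set.range s, Set.infinite_range_of_injective h1.injective, ?_, fun D => ?_⟩
    · rintro _ ⟨j, rfl⟩
      exact h2 j
    · obtain ⟨R, h4⟩ := h3 D
      refine ⟨R, fun F hF => ?_⟩
      rw [hc, hc]
      exact h4 F fun a ha => ⟨(hF a ha).2, (hF a ha).1⟩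

end Pool.Agent.Results.MP_4fffd4_nt.InfinitePatternSets
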