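import Pool.Agent.V11296.RP3

/-!
# Block complexity of the Liouville function: all sign patterns on random pairs of positions

For fixed distances `a_1, …, a_r` (for instance `1`: neighbours) and all scales `N` outside a set of logarithmic density
zero, almost all choices of `h_1, …, h_r ≤ N` are such that all the `4 ^ r` sign patterns on the `2 r` positions
`h_1, h_1 + a_1, …, h_r, h_r + a_r` occur with the expected frequency, also along arbitrary sets of starting points.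
-/

set_option autoImplicit false

namespace Pool.Agent.Results.MP_4fffd4_nt.RandomPairs

open Finset Filter Topology

/-- The Liouville function. -/
def lam (n : ℕ) : ℤ := (-1) ^ ArithmeticFunction.cardFactors n

open Classical in
/-- `E` has logarithmic density zero. -/
def LogNull (E : Set ℕ) : Prop :=
  Tendsto (fun X : ℕ => (∑ n ∈ Icc 1 X, if n ∈ E then (1 : ℝ) / n else 0) / Real.log X) atTop (𝓝 0)

/-- The `r`-tuples of numbers from `1` to `N`. -/
def tuples (r N : ℕ) : Finset (Fin r → ℕ) := Fintype.piFinset fun _ => Icc 1 N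

open Classical in
/-- The number of the `n ≤ N` in `E`. -/
noncomputable def total (E : Set ℕ) (N : ℕ) : ℕ := ((Icc 1 N).filter fun n => n ∈ E).card

open Classical in
/-- The number of the `n ≤ N` in `E` with `λ(n + h i) = v i` and `λ(n + h i + a i) = w i` for all `i`. -/
noncomputable def count (E : Set ℕ) (N : ℕ) {r : ℕ} (a h : Fin r → ℕ) (v w : Fin r → ℤ) : ℕ :=
  ((Icc 1 N).filter fun n => n ∈ E ∧ ∀ i, lam (n + h i) = v i ∧ lam (n + h i + a i) = w i).card

theorem result (r : ℕ) (a : Fin r → ℕ) (ha : ∀ i, 1 ≤ a i) :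
    (∀ (L : ℕ) (ε : ℝ), 0 < ε → LogNull {N : ℕ | ¬ ∀ E : Fin L → Set ℕ, ∃ T ⊆ tuples r N, (T.card : ℝ) ≤ ε * (N : ℝ) ^ r ∧
      ∀ h ∈ tuples r N, h ∉ T → ∀ l, ∀ v w : Fin r → ℤ, (∀ i, v i = 1 ∨ v i = -1) → (∀ i, w i = 1 ∨ w i = -1) →
        |(count (E l) N a h v w : ℝ) - total (E l) N / 4 ^ r| ≤ ε * N}) ∧
    (∀ c : ℝ, 0 < c → LogNull {N : ℕ | ¬ ∀ E : Set ℕ, c * N ≤ total E N → ∀ D ⊆ Icc 1 N, c * N ≤ D.card →
      ∃ h : Fin r → ℕ, (∀ i, h i ∈ D) ∧ ∀ v w : Fin r → ℤ, (∀ i, v i = 1 ∨ v i = -1) → (∀ i, w i = 1 ∨ w i = -1) →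
        (total E N : ℝ) / (2 * 4 ^ r) ≤ count E N a h v w}) := by
  classical
  have hlr : ∀ n : ℕ, Pool.Agent.V11296.FP.lr n = (lam n : ℝ) := by
    intro n
    unfold Pool.Agent.V11296.FP.lr lam
    push_cast
    rfl
  have first : ∀ (L : ℕ) (ε : ℝ), 0 < ε → LogNull {N : ℕ | ¬ ∀ E : Fin L → Set ℕ, ∃ T ⊆ tuples r N,
      (T.card : ℝ) ≤ ε * (N : ℝ) ^ r ∧
      ∀ h ∈ tuples r N, h ∉ T → ∀ l, ∀ v w : Fin r → ℤ, (∀ i, v i = 1 ∨ v i = -1) → (∀ i, w i = 1 ∨ w i = -1) →
        |(count (E l) N a h v w : ℝ) - total (E l) N / 4 ^ r| ≤ ε * N} := by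
    intro L ε hε
    refine Pool.Agent.Y842.EL.LZ_mono ?_ (Pool.Agent.V11296.RP.main r L a ha ε hε)
    intro N hN hcon
    apply hN
    intro E
    obtain ⟨T, hT, hTc, hTg⟩ := hcon E
    refine ⟨T, hT, hTc, fun h hh hhT l v w hv hw => ?_⟩
    have hvr : ∀ q : Fin r × Fin 2, ((if q.2 = 0 then (v q.1 : ℝ) else (w q.1 : ℝ)) : ℝ) = 1 ∨
        ((if q.2 = 0 then (v q.1 : ℝ) else (w q.1 : ℝ)) : ℝ) = -1 := by
      intro q
      split_ifs
      · rcases hv q.1 with h | h <;> rw [h]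
        · left; norm_num
        · right; norm_num
      · rcases hw q.1 with h | h <;> rw [h]
        · left; norm_num
        · right; norm_num
    have h1 := hTg h hh hhT l (fun q => if q.2 = 0 then (v q.1 : ℝ) else (w q.1 : ℝ)) hvr
    have h2 : Pool.Agent.V11296.FP.pat (E l) N (Pool.Agent.V11296.RP.pos a h)
        (fun q => if q.2 = 0 then (v q.1 : ℝ) else (w q.1 : ℝ)) = (count (E l) N a h v w : ℝ) := by
      rw [Pool.Agent.V11296.FP.pat_card _ _ _ _ hvr]
      unfold count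
      congr 1
      apply congrArg card
      ext n
      simp only [mem_filter, and_congr_right_iff]
      intro _ _
      constructor
      · intro h3 i
        have h4 := h3 (i, 0)
        have h5 := h3 (i, 1)
        unfold Pool.Agent.V11296.RP.pos at h4 h5
        simp only [hlr, Fin.val_zero, zero_mul, add_zero, if_true] at h4
        simp only [hlr, Fin.val_one, one_mul, one_ne_zero, if_false, ← add_assoc] at h5
        exact ⟨by exact_mod_cast h4, by exact_mod_cast h5⟩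
      · rintro h3 ⟨i, b⟩
        obtain ⟨h4, h5⟩ := h3 i
        unfold Pool.Agent.V11296.RP.pos
        fin_cases b
        · simp [hlr, h4]
        · simp [hlr, h5, ← add_assoc]
    have h3 : ∑ n ∈ Icc 1 N, Pool.Agent.V11296.FP.ind (E l) n = (total (E l) N : ℝ) := by
      rw [Pool.Agent.V11296.FP.ind_card]
      rfl
    rw [h2, h3] at h1
    exact h1
  refine ⟨first, ?_⟩
  intro c hc
  set ε : ℝ := min (c ^ r / 2) (c / (2 * 4 ^ r)) with hε
  have hε0 : 0 < ε := lt_min (by positivity) (by positivity)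
  refine Pool.Agent.Y842.EL.LZ_mono ?_ (Pool.Agent.Y842.EL.LZ_union (Pool.Agent.V1213.CH.LZ_fin 1) (first 1 ε hε0))
  intro N hN
  by_contra hcon
  apply hN
  have hc1 : ¬ N < 1 := fun h => hcon (Or.inl h)
  have hc2 : ∀ E : Fin 1 → Set ℕ, ∃ T ⊆ tuples r N,
      (T.card : ℝ) ≤ ε * (N : ℝ) ^ r ∧
      ∀ h ∈ tuples r N, h ∉ T → ∀ l, ∀ v w : Fin r → ℤ, (∀ i, v i = 1 ∨ v i = -1) → (∀ i, w i = 1 ∨ w i = -1) →
        |(count (E l) N a h v w : ℝ) - total (E l) N / 4 ^ r| ≤ ε * N := by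
    by_contra h
    exact hcon (Or.inr h)
  have hN0 : (0 : ℝ) < N := by exact_mod_cast (by omega : 0 < N)
  intro E hE D hD hDc
  obtain ⟨T, hT, hTc, hTg⟩ := hc2 (fun _ => E)
  have hex : ∃ h ∈ (Fintype.piFinset fun _ : Fin r => D), h ∉ T := by
    by_contra hno
    push Not at hno
    have h1 : (Fintype.piFinset fun _ : Fin r => D) ⊆ T := fun h hh => hno h hh
    have h2 : ((D.card : ℝ)) ^ r ≤ ε * (N : ℝ) ^ r := by
      refine le_trans ?_ hTc
      have h3 : (Fintype.piFinset fun _ : Fin r => D).card = D.card ^ r := Fintype.card_piFinset_const D r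
      have h4 := card_le_card h1
      rw [h3] at h4
      exact_mod_cast h4
    have h3 : (c * N) ^ r ≤ (D.card : ℝ) ^ r := pow_le_pow_left₀ (by positivity) hDc r
    have h4 : ε ≤ c ^ r / 2 := min_le_left _ _
    have h5 : ε * (N : ℝ) ^ r ≤ c ^ r / 2 * (N : ℝ) ^ r := mul_le_mul_of_nonneg_right h4 (by positivity)
    have h6 : (0 : ℝ) < c ^ r * (N : ℝ) ^ r := by positivity
    rw [mul_pow] at h3
    linarith
  obtain ⟨h, hh, hhT⟩ := hex
  have hhD : ∀ i, h i ∈ D := fun i => Fintype.mem_piFinset.1 hh i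
  refine ⟨h, hhD, fun v w hv hw => ?_⟩
  have h1 := hTg h (Fintype.mem_piFinset.2 fun i => hD (hhD i)) hhT 0 v w hv hw
  have h2 := (abs_le.1 h1).1
  have h3 : ε ≤ c / (2 * 4 ^ r) := min_le_right _ _
  have h4 : ε * N ≤ (total E N : ℝ) / (2 * 4 ^ r) := by
    calc ε * N ≤ c / (2 * 4 ^ r) * N := mul_le_mul_of_nonneg_right h3 hN0.le
      _ = c * N / (2 * 4 ^ r) := by ring
      _ ≤ _ := div_le_div_of_nonneg_right hE (by positivity)
  have h5 : (total E N : ℝ) / 4 ^ r = (total E N : ℝ) / (2 * 4 ^ r) + (total E N : ℝ) / (2 * 4 ^ r) := by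
    field_simp
    norm_num
  linarith

end Pool.Agent.Results.MP_4fffd4_nt.RandomPairs
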