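import Mathlib
import Pool.Agent.V11160.SP.B
set_option autoImplicit false

/-!
# Changing the Liouville function on a sparse set of primes

Let `P` be an arbitrary infinite set of primes, however sparse.  Change the values of the Liouville
function (or of any completely multiplicative function with values `±1`) at the primes of `P` to
independent random signs, keeping complete multiplicativity.  Almost surely every sign pattern of
every length occurs among consecutive values, at a set of places of positive upper density.
-/

namespace Pool.Agent.Results.MP_4fffd4_nt.SparsePerturbations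

open MeasureTheory Filter
open scoped Classical

/-- The completely multiplicative function with the values `c p` at the primes `p`. -/
def mult (c : ℕ → ℤ) (m : ℕ) : ℤ := (m.primeFactorsList.map c).prod

/-- The values `c p` for `p ∉ P`, and the sign given by `s p` for `p ∈ P`. -/
noncomputable def perturb (P : Set ℕ) (c : ℕ → ℤ) (s : ℕ → Bool) (p : ℕ) : ℤ :=
  if p ∈ P then (if s p then 1 else -1) else c p

/-- Positive upper density: for some `k` the set `A` contains at least `X / k` of the numbers
below `X`, for infinitely many `X`. -/
def PositiveUpperDensity (A : Set ℕ) : Prop :=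
  ∃ k : ℕ, ∃ᶠ X : ℕ in atTop, X ≤ k * ((Finset.range X).filter (· ∈ A)).card

/-- Independent fair coins. -/
noncomputable def coins : Measure (ℕ → Bool) :=
  Measure.infinitePi fun _ => (PMF.uniformOfFintype Bool).toMeasure

theorem result (P : Set ℕ) (hP : ∀ p ∈ P, p.Prime) (hinf : P.Infinite) (c : ℕ → ℤ)
    (hc : ∀ p, c p = 1 ∨ c p = -1) :
    (∀ᵐ s ∂coins, ∀ (n : ℕ) (ε : Fin n → ℤ), (∀ j, ε j = 1 ∨ ε j = -1) →
      PositiveUpperDensity {m : ℕ | ∀ j : Fin n, mult (perturb P c s) (m + (j + 1)) = ε j}) ∧
    (∀ (s : ℕ → Bool) (m : ℕ), (∀ p ∈ P, ¬ p ∣ m) → mult (perturb P c s) m = mult c m) ∧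
    (∀ m : ℕ, mult (fun _ => -1) m = (-1) ^ (ArithmeticFunction.cardFactors m)) := by
  refine ⟨V11160.SP.main P hP hinf c hc, ?_, ?_⟩
  · intro s m hm
    refine V11160.SP.mult_congr fun p _ hpm => ?_
    exact if_neg fun hp => hm p hp hpm
  · intro m
    rw [ArithmeticFunction.cardFactors_apply, mult]
    induction m.primeFactorsList with
    | nil => rfl
    | cons p l ih =>
      rw [List.map_cons, List.prod_cons, ih, List.length_cons, pow_succ]
      ring

end Pool.Agent.Results.MP_4fffd4_nt.SparsePerturbations
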